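import Pool.Agent.Lib.MP_3fd6b0_co.Fr
import Pool.Agent.Lib.MP_3fd6b0_co.Ultra

namespace Pool.Agent.Results.MP_3fd6b0_co.LowDegree

open Module Pool.Agent.Lib.MP_3fd6b0_co

theorem result (D : ℕ) : ∃ q0 : ℕ, ∀ (F K : Type) [Field F] [Fintype F] [Field K] [Algebra F K],
    finrank F K = 2 → Odd (Fintype.card F) → q0 ≤ Fintype.card F →
    ∀ θ : K, θ ≠ 0 → θ ^ Fintype.card F = -θ →
    ∀ S : Set (Submodule K (Fin 5 → K)), IsSpread (Fintype.card F) S → ∀ W ∈ S,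
      (∃ e : Fin 5 → Fin 5 → K, Frame (Fintype.card F) e ∧ Submodule.span K {e 2, e 3} = W) ∧
      ∀ e : Fin 5 → Fin 5 → K, Frame (Fintype.card F) e → Submodule.span K {e 2, e 3} = W →
        (∃ φ : (Fin 5 → F) → Fin 3 → F,
          S = insert W (Set.range fun s => line (Fintype.card F) θ e s (φ s))) ∧
        ∀ f : Fin 3 → MvPolynomial (Fin 5) F, (∀ j, (f j).totalDegree ≤ D) →
          ∃ s : Fin 5 → F, line (Fintype.card F) θ e s (fun j => MvPolynomial.eval s (f j)) ∉ S := by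
  obtain ⟨q0, hq0⟩ := uniform D
  refine ⟨q0, fun F K _ _ _ _ hK hq hge θ h0 hθ S hS W hW =>
    ⟨exists_frame hK hq h0 hθ (hS.1 W hW), fun e he hWe => ⟨?_, fun f hf => ?_⟩⟩⟩
  · subst hWe
    exact normal_form hK hq h0 hθ he hS hW
  have hdis : ∀ U ∈ S, ∀ V ∈ S, U ≠ V → U ⊓ V = ⊥ := fun U hU V hV hUV => by
    rw [Submodule.eq_bot_iff]
    intro x hx
    by_contra h
    exact hUV ((hS.2 x h ((hS.1 U hU).2 x hx.1)).unique ⟨hU, hx.1⟩ ⟨hV, hx.2⟩)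
  obtain ⟨h2, d, hd, hns⟩ := exists_d hK hq h0 hθ
  obtain ⟨s, t, x, hst, hx, h⟩ := hq0 F hge h2 d hns f hf
  by_contra hcon
  push Not at hcon
  exact line_meet hK hq h0 hθ he hd hx h
    (hdis _ (hcon s) _ (hcon t) fun e' => hst (line_inj hK hq h0 hθ he e'))

end Pool.Agent.Results.MP_3fd6b0_co.LowDegree
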