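import Mathlib

namespace Pool.Agent.Results.MP_3fd6b0_co.PartialSpread

open Module

section
variable {F K : Type*} [Field F] [Field K] [Algebra F K]

/-- hyperbolic coordinates -/
def emb (a x1 x2 y1 y2 z : K) : Fin 5 → K :=
  ![z, x1 + y1, a * (x1 - y1), x2 + y2, a * (x2 - y2)]

lemma emb_inj {a : K} (ha : a ≠ 0) (h2 : (2 : K) ≠ 0) {x1 x2 y1 y2 z x1' x2' y1' y2' z' : K}
    (h : emb a x1 x2 y1 y2 z = emb a x1' x2' y1' y2' z') :
    x1 = x1' ∧ x2 = x2' ∧ y1 = y1' ∧ y2 = y2' ∧ z = z' := by
  have h0 := congrFun h 0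
  have h1 := congrFun h 1
  have h2' := congrFun h 2
  have h3 := congrFun h 3
  have h4 := congrFun h 4
  simp only [emb, Matrix.cons_val_zero, Matrix.cons_val_one, Matrix.cons_val] at h0 h1 h2' h3 h4
  have e1 := mul_left_cancel₀ ha h2'
  have e2 := mul_left_cancel₀ ha h4
  refine ⟨?_, ?_, ?_, ?_, h0⟩
  · apply mul_left_cancel₀ h2; linear_combination h1 + e1
  · apply mul_left_cancel₀ h2; linear_combination h3 + e2
  · apply mul_left_cancel₀ h2; linear_combination h1 - e1
  · apply mul_left_cancel₀ h2; linear_combination h3 - e2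

/-- the linear map whose range is a line of the partial spread -/
def lin (a p11 p12 p21 p22 b1 b2 e : K) : (K × K) →ₗ[K] (Fin 5 → K) where
  toFun x := emb a (e * x.1) (e * x.2) (p11 * x.1 + p12 * x.2) (p21 * x.1 + p22 * x.2)
    (2 * (b1 * x.1 + b2 * x.2))
  map_add' x y := by
    funext j
    fin_cases j <;> simp [emb] <;> ring
  map_smul' c x := by
    funext j
    fin_cases j <;> simp [emb] <;> ring

lemma lin_apply (a p11 p12 p21 p22 b1 b2 e : K) (x : K × K) :
    lin a p11 p12 p21 p22 b1 b2 e x =
      emb a (e * x.1) (e * x.2) (p11 * x.1 + p12 * x.2) (p21 * x.1 + p22 * x.2)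
        (2 * (b1 * x.1 + b2 * x.2)) := rfl

lemma form_emb (s : K →+* K) (q : ℕ) (hs : ∀ x, s x = x ^ q) (a : K) (ha : a * s a = -1)
    (x1 x2 y1 y2 z : K) :
    ∑ j, (emb a x1 x2 y1 y2 z j) ^ (q + 1) =
      z * s z + 2 * (x1 * s y1 + s x1 * y1 + x2 * s y2 + s x2 * y2) := by
  simp only [Fin.sum_univ_five, pow_succ, ← hs, emb, Matrix.cons_val_zero, Matrix.cons_val_one,
    Matrix.cons_val, map_add, map_mul, map_sub]
  linear_combination ((x1 - y1) * (s x1 - s y1) + (x2 - y2) * (s x2 - s y2)) * ha

end

theorem result (F K : Type) [Field F] [Fintype F] [Field K] [Algebra F K]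
    (hK : finrank F K = 2) (hq : Odd (Fintype.card F)) :
    ∃ S : Finset (Submodule K (Fin 5 → K)),
      S.card = Fintype.card F ^ 4 + 1 ∧
      (∀ U ∈ S, finrank K U = 2 ∧ ∀ x ∈ U, ∑ j, x j ^ (Fintype.card F + 1) = 0) ∧
      ∀ U ∈ S, ∀ V ∈ S, U ≠ V → U ⊓ V = ⊥ := by
  classical
  have : Module.Finite F K := Module.finite_of_finrank_eq_succ hK
  have : Finite K := Module.finite_of_finite F
  let _ : Fintype K := Fintype.ofFinite K
  set q := Fintype.card F with hqdef
  have hcard : Fintype.card K = q ^ 2 := by rw [Module.card_eq_pow_finrank (K := F), hK]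
  let s : K →+* K := (FiniteField.frobeniusAlgHom F K).toRingHom
  have hs : ∀ x, s x = x ^ q := fun x => rfl
  have hss : ∀ x, s (s x) = x := fun x => by
    rw [hs, hs, ← pow_mul, ← sq, ← hcard, FiniteField.pow_card]
  have hsF : ∀ u : F, s (algebraMap F K u) = algebraMap F K u := fun u =>
    (FiniteField.frobeniusAlgHom F K).commutes u
  have hq1 : 1 < q := Fintype.one_lt_card
  have h2F : (2 : F) ≠ 0 := by
    intro h
    have hc : ringChar F = 2 := by
      have : CharP F 2 := (CharP.charP_iff_prime_eq_zero Nat.prime_two).2 (by exact_mod_cast h)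
      exact ringChar.eq F 2
    have := FiniteField.even_card_iff_char_two.1 hc
    rw [Nat.odd_iff] at hq
    omega
  have h2 : (2 : K) ≠ 0 := by
    intro h
    apply h2F
    apply (algebraMap F K).injective
    rw [map_ofNat, map_zero, h]
  -- the element a with norm -1
  obtain ⟨a, ha⟩ : ∃ a : K, a * s a = -1 := by
    obtain ⟨a, ha⟩ := FiniteField.norm_surjective F K (-1)
    refine ⟨a, ?_⟩
    have := FiniteField.algebraMap_norm_eq_pow (K := F) (x := a)
    rw [ha, Nat.card_eq_fintype_card, Nat.card_eq_fintype_card, hcard, ← hqdef] at this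
    have e : (q ^ 2 - 1) / (q - 1) = q + 1 := by
      have : q ^ 2 - 1 = (q + 1) * (q - 1) := by
        have := Nat.sq_sub_sq q 1
        simpa using this
      rw [this, Nat.mul_div_cancel _ (by omega)]
    rw [e, map_neg, map_one] at this
    rw [hs, ← pow_succ', this]
  have ha0 : a ≠ 0 := by
    rintro rfl
    simp at ha
  -- the trace zero element
  obtain ⟨i, hi0, hi⟩ : ∃ i : K, i ≠ 0 ∧ s i = -i := by
    by_contra hcon
    push Not at hcon
    have hall : ∀ x : K, s x = x := by
      intro x
      by_contra hx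
      apply hcon (s x - x) (sub_ne_zero.2 hx)
      rw [map_sub, hss]; ring
    have h1 : FiniteField.frobeniusAlgHom F K = 1 := AlgHom.ext hall
    have := FiniteField.orderOf_frobeniusAlgHom F K
    rw [h1, orderOf_one, hK] at this
    omega
  -- the cubic without roots
  obtain ⟨c, hc⟩ : ∃ c : F, ∀ u : F, u ^ 3 - u ≠ c := by
    by_contra hcon
    push Not at hcon
    have hsur : Function.Surjective (fun u : F => u ^ 3 - u) := hcon
    have hinj := Finite.injective_iff_surjective.2 hsur
    have : (0 : F) = 1 := hinj (by simp)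
    exact zero_ne_one this
  let r : F → K := algebraMap F K
  let L : F × F × K → (K × K) →ₗ[K] (Fin 5 → K) := fun p =>
    lin a (i * r (p.1 + c * p.2.1) - r p.1 ^ 2) (p.2.2 - r p.1 * r p.2.1)
      (- s p.2.2 - r p.1 * r p.2.1) (i * r p.1 - r p.2.1 ^ 2) (r p.1) (r p.2.1) 1
  let L0 : (K × K) →ₗ[K] (Fin 5 → K) := lin a 1 0 0 1 0 0 0
  have key : ∀ p p' x x', L p x = L p' x' → p ≠ p' → x = 0 := by
    rintro ⟨b1, b2, z⟩ ⟨b1', b2', z'⟩ ⟨x1, x2⟩ ⟨x1', x2'⟩ h hne
    obtain ⟨e1, e2, e3, e4, e5⟩ := emb_inj ha0 h2 h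
    simp only [one_mul] at e1 e2 e3 e4 e5
    subst e1 e2
    have e6 := mul_left_cancel₀ h2 e5
    simp only [r, map_add, map_mul] at e3 e4 e6
    set B1 := algebraMap F K b1
    set B2 := algebraMap F K b2
    set B1' := algebraMap F K b1'
    set B2' := algebraMap F K b2'
    set C := algebraMap F K c
    have f0 : (B1 - B1') * x1 + (B2 - B2') * x2 = 0 := by linear_combination e6
    have f1 : i * ((B1 - B1') + C * (B2 - B2')) * x1 + (z - z') * x2
        - (B1 - B1') * (B1 * x1 + B2 * x2) = 0 := by
      linear_combination e3 + B1' * e6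
    have f2 : - (s z - s z') * x1 + i * (B1 - B1') * x2
        - (B2 - B2') * (B1 * x1 + B2 * x2) = 0 := by
      linear_combination e4 + B2' * e6
    by_cases g2 : b2 = b2'
    · have G2 : B2 - B2' = 0 := by simp [B2, B2', g2]
      rw [G2] at f0 f1 f2
      by_cases g1 : b1 = b1'
      · have G1 : B1 - B1' = 0 := by simp [B1, B1', g1]
        rw [G1] at f1 f2
        have hz : z - z' ≠ 0 := by
          intro hz
          apply hne
          rw [g1, g2, sub_eq_zero.1 hz]
        have hz' : s z - s z' ≠ 0 := by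
          rw [← map_sub]
          exact (map_ne_zero s).2 hz
        have a2 : x2 = 0 := by
          apply mul_left_cancel₀ hz
          linear_combination f1
        have a1 : x1 = 0 := by
          apply mul_left_cancel₀ hz'
          linear_combination -f2
        simp [a1, a2]
      · have G1 : B1 - B1' ≠ 0 := by
          rw [sub_ne_zero]
          exact fun h => g1 ((algebraMap F K).injective h)
        have a1 : x1 = 0 := by
          apply mul_left_cancel₀ G1
          linear_combination f0
        have a2 : x2 = 0 := by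
          apply mul_left_cancel₀ (mul_ne_zero hi0 G1)
          rw [a1] at f2
          linear_combination f2
        simp [a1, a2]
    · have G2 : B2 - B2' ≠ 0 := by
        rw [sub_ne_zero]
        exact fun h => g2 ((algebraMap F K).injective h)
      by_cases a1 : x1 = 0
      · have a2 : x2 = 0 := by
          apply mul_left_cancel₀ G2
          rw [a1] at f0
          linear_combination f0
        simp [a1, a2]
      · exfalso
        have s1 : s B1 = B1 := hsF _
        have s2 : s B2 = B2 := hsF _
        have s1' : s B1' = B1' := hsF _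
        have s2' : s B2' = B2' := hsF _
        have sC : s C = C := hsF _
        have k1 : i * ((B1 - B1') + C * (B2 - B2')) * (B2 - B2') - (z - z') * (B1 - B1')
            - (B1 - B1') * (B1 * (B2 - B2') - B2 * (B1 - B1')) = 0 := by
          apply mul_left_cancel₀ a1
          linear_combination (B2 - B2') * f1 - ((z - z') - (B1 - B1') * B2) * f0
        have k2 : - (s z - s z') * (B2 - B2') - i * (B1 - B1') * (B1 - B1')
            - (B2 - B2') * (B1 * (B2 - B2') - B2 * (B1 - B1')) = 0 := by
          apply mul_left_cancel₀ a1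
          linear_combination (B2 - B2') * f2 - (i * (B1 - B1') - (B2 - B2') * B2) * f0
        have k3 := congrArg s k1
        simp only [map_sub, map_mul, map_add, s1, s2, s1', s2', sC, hi, map_zero] at k3
        have k4 : (B1 - B1') ^ 3 - (B1 - B1') * (B2 - B2') ^ 2 - C * (B2 - B2') ^ 3 = 0 := by
          apply mul_left_cancel₀ hi0
          linear_combination (B2 - B2') * k3 - (B1 - B1') * k2
        have k5 : (b1 - b1') ^ 3 - (b1 - b1') * (b2 - b2') ^ 2 - c * (b2 - b2') ^ 3 = 0 := by
          apply (algebraMap F K).injective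
          simpa [map_sub, map_mul, map_pow] using k4
        have g2' : b2 - b2' ≠ 0 := sub_ne_zero.2 g2
        apply hc ((b1 - b1') / (b2 - b2'))
        field_simp
        linear_combination k5
  have hLinj : ∀ p, Function.Injective (L p) := by
    intro p x y h
    obtain ⟨e1, e2, -⟩ := emb_inj ha0 h2 h
    simp only [one_mul] at e1 e2
    exact Prod.ext e1 e2
  have hL0inj : Function.Injective L0 := by
    intro x y h
    obtain ⟨-, -, e1, e2, -⟩ := emb_inj ha0 h2 h
    simp only [one_mul, zero_mul, add_zero, zero_add] at e1 e2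
    exact Prod.ext e1 e2
  have key0 : ∀ p x x', L p x = L0 x' → x = 0 := by
    intro p x x' h
    obtain ⟨e1, e2, -⟩ := emb_inj ha0 h2 h
    simp only [one_mul, zero_mul] at e1 e2
    exact Prod.ext e1 e2
  have disj : ∀ p p', p ≠ p' → LinearMap.range (L p) ⊓ LinearMap.range (L p') = ⊥ := by
    intro p p' hne
    rw [eq_bot_iff]
    rintro v ⟨⟨x, rfl⟩, ⟨x', hx'⟩⟩
    rw [key p p' x x' hx'.symm hne, map_zero]
    exact Submodule.zero_mem _
  have disj0 : ∀ p, LinearMap.range (L p) ⊓ LinearMap.range L0 = ⊥ := by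
    intro p
    rw [eq_bot_iff]
    rintro v ⟨⟨x, rfl⟩, ⟨x', hx'⟩⟩
    rw [key0 p x x' hx'.symm, map_zero]
    exact Submodule.zero_mem _
  have rk : ∀ p, finrank K (LinearMap.range (L p)) = 2 := fun p => by
    rw [LinearMap.finrank_range_of_inj (hLinj p)]; simp
  have rk0 : finrank K (LinearMap.range L0) = 2 := by
    rw [LinearMap.finrank_range_of_inj hL0inj]; simp
  have nb : ∀ p, LinearMap.range (L p) ≠ ⊥ := fun p h => by
    have := rk p
    rw [h, finrank_bot] at this
    omega
  have hinj : Function.Injective (fun p => LinearMap.range (L p)) := by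
    intro p p' h
    by_contra hne
    have := disj p p' hne
    simp only at h
    rw [← h, inf_idem] at this
    exact nb p this
  refine ⟨insert (LinearMap.range L0) (Finset.univ.image fun p => LinearMap.range (L p)),
    ?_, ?_, ?_⟩
  · rw [Finset.card_insert_of_notMem, Finset.card_image_of_injective _ hinj, Finset.card_univ]
    · simp only [Fintype.card_prod, hcard, ← hqdef]; ring
    · intro h
      obtain ⟨p, -, hp⟩ := Finset.mem_image.1 h
      have := disj0 p
      rw [← hp, inf_idem] at this
      exact nb p this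
  · intro U hU
    rcases Finset.mem_insert.1 hU with rfl | hU
    · refine ⟨rk0, ?_⟩
      rintro v ⟨x, rfl⟩
      rw [lin_apply, form_emb s q hs a ha]
      simp
    · obtain ⟨⟨b1, b2, z⟩, -, rfl⟩ := Finset.mem_image.1 hU
      refine ⟨rk _, ?_⟩
      rintro v ⟨x, rfl⟩
      simp only [L]
      rw [lin_apply, form_emb s q hs a ha]
      simp only [r, map_add, map_mul, map_sub, map_neg, map_pow, hsF, hss, hi, map_ofNat, map_one]
      ring
  · intro U hU V hV hne
    rcases Finset.mem_insert.1 hU with rfl | hU <;> rcases Finset.mem_insert.1 hV with rfl | hV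
    · exact absurd rfl hne
    · obtain ⟨p, -, rfl⟩ := Finset.mem_image.1 hV
      rw [inf_comm]; exact disj0 p
    · obtain ⟨p, -, rfl⟩ := Finset.mem_image.1 hU
      exact disj0 p
    · obtain ⟨p, -, rfl⟩ := Finset.mem_image.1 hU
      obtain ⟨p', -, rfl⟩ := Finset.mem_image.1 hV
      exact disj p p' (fun h => hne (by rw [h]))

end Pool.Agent.Results.MP_3fd6b0_co.PartialSpread
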